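import Pool.Agent.K1H88.GT.Stm
import Pool.Agent.H353R2.Z2

/-!
# Project GT: counting quadruples by their determinant
-/

set_option autoImplicit false

namespace Pool.Agent.K1H21.GT

open Finset Pool.Agent.K1H88.GT

lemma harm_le (j : ℕ) : ∑ e ∈ Icc 1 j, (e : ℝ)⁻¹ ≤ 1 + Real.log j := by
  have h := harmonic_le_one_add_log j
  rw [harmonic_eq_sum_Icc] at h
  push_cast at h
  exact h

lemma inner (A B j : ℕ) (g : ℕ → ℝ) (hg : ∀ v, 0 ≤ g v) :
    ∑ m ∈ Ioc A B, ∑ h ∈ Icc 1 j, g (m * h) ≤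
      ∑ v ∈ Icc 1 (B * j), (v.divisors.card : ℝ) * g v := by
  classical
  rw [← sum_product' (Ioc A B) (Icc 1 j) (fun m h => g (m * h))]
  have hmap : ∀ x ∈ Ioc A B ×ˢ Icc 1 j, x.1 * x.2 ∈ Icc 1 (B * j) := by
    intro x hx
    rw [mem_product, mem_Ioc, mem_Icc] at hx
    rw [mem_Icc]
    exact ⟨Nat.mul_pos (by omega) hx.2.1, Nat.mul_le_mul hx.1.2 hx.2.2⟩
  rw [← sum_fiberwise_of_maps_to hmap]
  refine sum_le_sum fun v hv => ?_
  have h1 : ∑ x ∈ (Ioc A B ×ˢ Icc 1 j).filter (fun x => x.1 * x.2 = v), g (x.1 * x.2) =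
      (((Ioc A B ×ˢ Icc 1 j).filter (fun x => x.1 * x.2 = v)).card : ℝ) * g v := by
    rw [← nsmul_eq_mul, ← sum_const]
    refine sum_congr rfl fun x hx => ?_
    rw [(mem_filter.1 hx).2]
  rw [h1]
  apply mul_le_mul_of_nonneg_right _ (hg v)
  rw [mem_Icc] at hv
  have h2 : ((Ioc A B ×ˢ Icc 1 j).filter (fun x => x.1 * x.2 = v)).card ≤ v.divisors.card := by
    apply card_le_card_of_injOn (fun x => x.1)
    · intro x hx
      have hx' := (mem_filter.1 hx).2
      exact Nat.mem_divisors.2 ⟨⟨_, hx'.symm⟩, by omega⟩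
    · intro x hx y hy hxy
      have hx' := (mem_filter.1 hx).2
      have hy' := (mem_filter.1 hy).2
      have hxy' : x.1 = y.1 := hxy
      have hpos : 0 < y.1 := by
        rcases Nat.eq_zero_or_pos y.1 with h | h
        · rw [h, Nat.zero_mul] at hy'; omega
        · exact h
      have : x.2 = y.2 := by
        rw [hxy', ← hy'] at hx'
        exact Nat.eq_of_mul_eq_mul_left hpos hx'
      exact Prod.ext hxy' this
  exact_mod_cast h2

lemma outer (A B j : ℕ) (G : ℤ → ℝ) (hG : ∀ x, 0 ≤ G x) :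
    ∑ p ∈ quad A B j, G (det p) ≤ ∑ m' ∈ Ioc A B, ∑ h ∈ Icc 1 j,
      ∑ v ∈ Icc 1 (B * j), (v.divisors.card : ℝ) * G ((v : ℤ) - ((m' * h : ℕ) : ℤ)) := by
  have h1 : ∑ p ∈ quad A B j, G (det p) = ∑ m' ∈ Ioc A B, ∑ h ∈ Icc 1 j,
      ∑ m ∈ Ioc A B, ∑ h' ∈ Icc 1 j, G (((m * h' : ℕ) : ℤ) - ((m' * h : ℕ) : ℤ)) := by
    unfold quad
    rw [sum_product, sum_product]
    simp only [sum_product]
    -- now `m, h, m', h'`
    calc ∑ m ∈ Ioc A B, ∑ h ∈ Icc 1 j, ∑ m' ∈ Ioc A B, ∑ h' ∈ Icc 1 j, G (det ((m, h), (m', h')))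
        = ∑ m ∈ Ioc A B, ∑ m' ∈ Ioc A B, ∑ h ∈ Icc 1 j, ∑ h' ∈ Icc 1 j,
            G (det ((m, h), (m', h'))) := sum_congr rfl fun m _ => sum_comm
      _ = ∑ m' ∈ Ioc A B, ∑ m ∈ Ioc A B, ∑ h ∈ Icc 1 j, ∑ h' ∈ Icc 1 j,
            G (det ((m, h), (m', h'))) := sum_comm
      _ = ∑ m' ∈ Ioc A B, ∑ h ∈ Icc 1 j, ∑ m ∈ Ioc A B, ∑ h' ∈ Icc 1 j,
            G (det ((m, h), (m', h'))) := sum_congr rfl fun m _ => sum_comm
      _ = _ := by
          refine sum_congr rfl fun m' _ => sum_congr rfl fun h _ => sum_congr rfl fun m _ =>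
            sum_congr rfl fun h' _ => ?_
          simp [det]
  rw [h1]
  refine sum_le_sum fun m' _ => sum_le_sum fun h _ => ?_
  exact inner A B j (fun v => G ((v : ℤ) - ((m' * h : ℕ) : ℤ))) (fun v => hG _)

lemma inv_sum (V c : ℕ) (hc : 1 ≤ c) (hcV : c ≤ V) :
    ∑ v ∈ Icc 1 V, (if ((v : ℤ) - (c : ℤ)) = 0 then 0 else 1 / |(((v : ℤ) - (c : ℤ) : ℤ) : ℝ)|) ≤
      2 * (1 + Real.log V) := by
  classical
  have hh := harm_le V
  have h1 : ∑ v ∈ (Icc 1 V).filter (fun v => v < c), ((c - v : ℕ) : ℝ)⁻¹ ≤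
      ∑ e ∈ Icc 1 V, (e : ℝ)⁻¹ := by
    rw [← sum_image (s := (Icc 1 V).filter (fun v => v < c)) (g := fun v => c - v)
      (f := fun e : ℕ => (e : ℝ)⁻¹)]
    · apply sum_le_sum_of_subset_of_nonneg
      · intro e he
        obtain ⟨v, hv, rfl⟩ := mem_image.1 he
        rw [mem_filter, mem_Icc] at hv
        rw [mem_Icc]
        omega
      · intro e _ _; positivity
    · intro v hv w hw hvw
      have hv' := mem_filter.1 hv
      have hw' := mem_filter.1 hw
      have hvw' : c - v = c - w := hvw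
      omega
  have h2 : ∑ v ∈ (Icc 1 V).filter (fun v => c < v), ((v - c : ℕ) : ℝ)⁻¹ ≤
      ∑ e ∈ Icc 1 V, (e : ℝ)⁻¹ := by
    rw [← sum_image (s := (Icc 1 V).filter (fun v => c < v)) (g := fun v => v - c)
      (f := fun e : ℕ => (e : ℝ)⁻¹)]
    · apply sum_le_sum_of_subset_of_nonneg
      · intro e he
        obtain ⟨v, hv, rfl⟩ := mem_image.1 he
        rw [mem_filter, mem_Icc] at hv
        rw [mem_Icc]
        omega
      · intro e _ _; positivity
    · intro v hv w hw hvw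
      have hv' := mem_filter.1 hv
      have hw' := mem_filter.1 hw
      have hvw' : v - c = w - c := hvw
      omega
  have h3 : ∑ v ∈ Icc 1 V,
      (if ((v : ℤ) - (c : ℤ)) = 0 then 0 else 1 / |(((v : ℤ) - (c : ℤ) : ℤ) : ℝ)|) =
      ∑ v ∈ Icc 1 V, ((if v < c then ((c - v : ℕ) : ℝ)⁻¹ else 0) +
        (if c < v then ((v - c : ℕ) : ℝ)⁻¹ else 0)) := by
    refine sum_congr rfl fun v _ => ?_
    rcases lt_trichotomy v c with h | h | h
    · have e1 : ¬ ((v : ℤ) - (c : ℤ)) = 0 := by omega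
      have e2 : ¬ c < v := by omega
      rw [if_neg e1, if_pos h, if_neg e2, add_zero, one_div]
      congr 1
      rw [Nat.cast_sub h.le]
      push_cast
      rw [abs_sub_comm]
      exact abs_of_nonneg (sub_nonneg.2 (by exact_mod_cast h.le))
    · subst h; simp
    · have e1 : ¬ ((v : ℤ) - (c : ℤ)) = 0 := by omega
      have e2 : ¬ v < c := by omega
      rw [if_neg e1, if_pos h, if_neg e2, zero_add, one_div]
      congr 1
      rw [Nat.cast_sub h.le]
      push_cast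
      exact abs_of_nonneg (sub_nonneg.2 (by exact_mod_cast h.le))
  rw [h3, sum_add_distrib, ← sum_filter, ← sum_filter]
  linarith

theorem t_CNTT : S_CNTT := by
  classical
  intro η hη
  obtain ⟨C, hC, hdiv⟩ := H353.divisor_bound_real (η / 4) (by positivity)
  have hC' : 0 ≤ C := by positivity
  refine ⟨2 * C * (1 + 8 / η), by positivity, fun A B j hj hjB => ?_⟩
  have hB1 : 1 ≤ B := hj.trans hjB
  have hB1r : (1 : ℝ) ≤ B := by exact_mod_cast hB1
  have hB0r : (0 : ℝ) < B := by linarith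
  obtain ⟨x, hx⟩ : ∃ x : ℝ, x = (B : ℝ) ^ (η / 4) := ⟨_, rfl⟩
  have hx1 : 1 ≤ x := by rw [hx]; exact Real.one_le_rpow hB1r (by positivity)
  have hx0 : 0 ≤ x := by linarith
  have hT : ∀ v ∈ Icc 1 (B * j), (v.divisors.card : ℝ) ≤ C * x ^ 2 := by
    intro v hv
    rw [mem_Icc] at hv
    refine (hdiv v (by omega)).trans ?_
    have e1 : (v : ℝ) ≤ (B : ℝ) ^ 2 := by
      have : v ≤ B ^ 2 := hv.2.trans (by rw [pow_two]; exact Nat.mul_le_mul_left _ hjB)
      exact_mod_cast this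
    have e2 : (v : ℝ) ^ (η / 4) ≤ x ^ 2 := by
      rw [hx, ← Real.rpow_natCast ((B : ℝ) ^ (η / 4)) 2, ← Real.rpow_mul hB0r.le,
        mul_comm (η / 4) ((2 : ℕ) : ℝ), Real.rpow_mul hB0r.le, Real.rpow_natCast]
      exact Real.rpow_le_rpow (Nat.cast_nonneg _) e1 (by positivity)
    exact mul_le_mul_of_nonneg_left e2 hC'
  have hpow : (B : ℝ) ^ (1 + η) = B * x ^ 4 := by
    rw [hx, Real.rpow_add hB0r, Real.rpow_one, ← Real.rpow_natCast ((B : ℝ) ^ (η / 4)) 4,
      ← Real.rpow_mul hB0r.le]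
    congr 2
    push_cast
    ring
  have hlog : 1 + Real.log ((B * j : ℕ) : ℝ) ≤ (1 + 8 / η) * x := by
    have e1 := Real.log_le_rpow_div hB0r.le (show 0 < η / 4 by positivity)
    have e3 : (B : ℝ) ^ (η / 4) / (η / 4) = 4 / η * x := by
      rw [hx]; field_simp
    rw [e3] at e1
    have e4 : Real.log ((B * j : ℕ) : ℝ) ≤ Real.log ((B : ℝ) ^ 2) := by
      apply Real.log_le_log
      · have : 0 < B * j := Nat.mul_pos hB1 hj
        exact_mod_cast this
      · have : B * j ≤ B ^ 2 := by rw [pow_two]; exact Nat.mul_le_mul_left _ hjB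
        exact_mod_cast this
    rw [Real.log_pow, Nat.cast_ofNat] at e4
    have e5 : (1 + 8 / η) * x = x + 2 * (4 / η * x) := by ring
    rw [e5]
    linarith
  have hlog0 : 0 ≤ Real.log ((B * j : ℕ) : ℝ) := Real.log_natCast_nonneg _
  -- general bound
  have gen : ∀ (G : ℤ → ℝ) (K : ℝ), (∀ x, 0 ≤ G x) → 0 ≤ K →
      (∀ c : ℕ, 1 ≤ c → c ≤ B * j → ∑ v ∈ Icc 1 (B * j), G ((v : ℤ) - (c : ℤ)) ≤ K) →
      ∑ p ∈ quad A B j, G (det p) ≤ B * j * (C * x ^ 2 * K) := by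
    intro G K hG hK hGK
    refine (outer A B j G hG).trans ?_
    calc ∑ m' ∈ Ioc A B, ∑ h ∈ Icc 1 j, ∑ v ∈ Icc 1 (B * j),
          (v.divisors.card : ℝ) * G ((v : ℤ) - ((m' * h : ℕ) : ℤ))
        ≤ ∑ m' ∈ Ioc A B, ∑ h ∈ Icc 1 j, C * x ^ 2 * K := by
          refine sum_le_sum fun m' hm' => sum_le_sum fun h hh => ?_
          rw [mem_Ioc] at hm'
          rw [mem_Icc] at hh
          calc ∑ v ∈ Icc 1 (B * j), (v.divisors.card : ℝ) * G ((v : ℤ) - ((m' * h : ℕ) : ℤ))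
              ≤ ∑ v ∈ Icc 1 (B * j), (C * x ^ 2) * G ((v : ℤ) - ((m' * h : ℕ) : ℤ)) :=
                sum_le_sum fun v hv => mul_le_mul_of_nonneg_right (hT v hv) (hG _)
            _ = (C * x ^ 2) * ∑ v ∈ Icc 1 (B * j), G ((v : ℤ) - ((m' * h : ℕ) : ℤ)) := by
                rw [mul_sum]
            _ ≤ (C * x ^ 2) * K := by
                apply mul_le_mul_of_nonneg_left _ (by positivity)
                exact hGK _ (Nat.mul_pos (by omega) hh.1) (Nat.mul_le_mul hm'.2 hh.2)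
      _ = ((B - A : ℕ) : ℝ) * (j * (C * x ^ 2 * K)) := by
          simp only [sum_const, Nat.card_Ioc, Nat.card_Icc, Nat.add_sub_cancel, nsmul_eq_mul]
      _ ≤ (B : ℝ) * (j * (C * x ^ 2 * K)) := by
          apply mul_le_mul_of_nonneg_right _ (by positivity)
          exact_mod_cast Nat.sub_le _ _
      _ = _ := by ring
  constructor
  · have h1 := gen (fun z => if z = 0 then 1 else 0) 1 (fun z => by positivity) zero_le_one (by
      intro c _ _
      have : ∀ v ∈ Icc 1 (B * j), (if ((v : ℤ) - (c : ℤ)) = 0 then (1 : ℝ) else 0) =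
          if v = c then 1 else 0 := by
        intro v _
        by_cases h : v = c
        · subst h; simp
        · have : ¬ ((v : ℤ) - (c : ℤ)) = 0 := by omega
          rw [if_neg this, if_neg h]
      rw [sum_congr rfl this, sum_ite_eq']
      split_ifs <;> norm_num)
    rw [← sum_filter, sum_const, nsmul_eq_mul, mul_one] at h1
    refine h1.trans ?_
    rw [hpow]
    have e1 : x ^ 2 ≤ x ^ 4 := pow_le_pow_right₀ hx1 (by norm_num)
    have e2 : 1 ≤ 2 * (1 + 8 / η) := by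
      have : 0 < 8 / η := by positivity
      linarith
    calc (B : ℝ) * j * (C * x ^ 2 * 1) = 1 * (C * (B * x ^ 2) * j) := by ring
      _ ≤ (2 * (1 + 8 / η)) * (C * (B * x ^ 4) * j) := by gcongr
      _ = _ := by ring
  · have h1 := gen (fun z => if z = 0 then 0 else 1 / |(z : ℝ)|)
      (2 * (1 + Real.log ((B * j : ℕ) : ℝ))) (fun z => by positivity) (by positivity)
      (fun c hc hcV => inv_sum _ _ hc hcV)
    have h2 : ∑ p ∈ (quad A B j).filter (fun p => det p ≠ 0), 1 / |(det p : ℝ)| =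
        ∑ p ∈ quad A B j, (if det p = 0 then 0 else 1 / |(det p : ℝ)|) := by
      rw [sum_filter]
      refine sum_congr rfl fun p _ => ?_
      by_cases h : det p = 0 <;> simp [h]
    rw [h2]
    refine h1.trans ?_
    rw [hpow]
    have e1 : x ^ 3 ≤ x ^ 4 := pow_le_pow_right₀ hx1 (by norm_num)
    calc (B : ℝ) * j * (C * x ^ 2 * (2 * (1 + Real.log ((B * j : ℕ) : ℝ))))
        ≤ (B : ℝ) * j * (C * x ^ 2 * (2 * ((1 + 8 / η) * x))) := by gcongr
      _ = 2 * C * (1 + 8 / η) * (B * x ^ 3) * j := by ring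
      _ ≤ 2 * C * (1 + 8 / η) * (B * x ^ 4) * j := by gcongr

end Pool.Agent.K1H21.GT
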